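import Mathlib
import Pool.Agent.R906.KBFin

set_option autoImplicit false

/-!
# All generalised McKay Bessel distributions are infinitely divisible
-/

namespace Pool.Agent.Results.MP_0c4359_pr.AllInfinitelyDivisible

open Pool.Agent.R906.KB MeasureTheory

/-- The set `D` of the pairs `(μ, ν)` with `μ > -1`, `μ + ν > 0` such that for all `b > a > 0` the
law with density `x ^ (ν - 1) e ^ (- b x) I_μ (a x) / c` on `(0, ∞)` is (a probability measure and)
infinitely divisible is the whole admissible region. -/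
theorem result :
    {z : ℝ × ℝ | -1 < z.1 ∧ 0 < z.1 + z.2 ∧ ∀ a b : ℝ, 0 < a → a < b →
      IsProbabilityMeasure (law z.1 z.2 a b) ∧ InfDiv (law z.1 z.2 a b)} =
    {z : ℝ × ℝ | -1 < z.1 ∧ 0 < z.1 + z.2} := by
  ext z
  constructor
  · rintro ⟨h1, h2, -⟩
    exact ⟨h1, h2⟩
  · rintro ⟨h1, h2⟩
    exact ⟨h1, h2, fun a b ha hab => main h1 h2 ha hab⟩

end Pool.Agent.Results.MP_0c4359_pr.AllInfinitelyDivisible
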